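import Pool.Agent.UMG.StmtsB

/-!
Squad UMG, block B, row GAM.
-/

set_option autoImplicit false

namespace Pool.Agent.UMG.B.H80

open Finset Pool.Agent.UMG Pool.Agent.UMG.B

theorem csum_const (k : ℕ) : ∀ C : ℕ, csum k (fun _ => C) = k.factorial * C := by
  induction k using Nat.strong_induction_on with
  | _ k ih =>
    intro C
    cases k with
    | zero =>
      rw [csum]
      simp
    | succ k =>
      rw [csum]
      have h : ∀ i ∈ range (k + 1), ((k.descFactorial i : ℕ) : ℕ) * csum (k - i) (fun _ => C) =
          k.factorial * C := by
        intro i hi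
        have h1 : i ≤ k := Nat.lt_succ_iff.1 (mem_range.1 hi)
        rw [ih (k - i) (by omega) C, ← Nat.factorial_mul_descFactorial h1]
        ring
      have h2 : (∑ i ∈ range (k + 1), ((k.descFactorial i : ℕ) : ℕ) * csum (k - i) (fun _ => C)) =
          ∑ i ∈ range (k + 1), k.factorial * C := sum_congr rfl h
      have h3 : (∑ i ∈ range (k + 1), k.factorial * C) = (k + 1).factorial * C := by
        rw [sum_const, card_range, Nat.factorial_succ, smul_eq_mul]
        ring
      exact h2.trans h3

theorem split (k : ℕ) : ∀ t : List ℕ, t.Pairwise (· ≤ ·) → (∀ a ∈ t, k ≤ a) →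
    ∃ t' : List ℕ, t = List.replicate (t.count k) k ++ t' ∧ k ∉ t' ∧ t'.Pairwise (· ≤ ·) := by
  intro t
  induction t with
  | nil =>
    intro _ _
    exact ⟨[], by simp, by simp, List.Pairwise.nil⟩
  | cons a s ih =>
    intro hp hk
    rw [List.pairwise_cons] at hp
    by_cases h : a = k
    · subst h
      obtain ⟨t', h1, h2, h3⟩ := ih hp.2 (fun b hb => hk b (List.mem_cons_of_mem _ hb))
      refine ⟨t', ?_, h2, h3⟩
      rw [List.count_cons_self, List.replicate_succ, List.cons_append, ← h1]
    · have h1 : k < a := lt_of_le_of_ne (hk a List.mem_cons_self) (fun e => h e.symm)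
      have h2 : k ∉ a :: s := by
        intro h3
        rcases List.mem_cons.1 h3 with h3 | h3
        · exact h h3.symm
        · have := hp.1 k h3
          omega
      refine ⟨a :: s, ?_, h2, List.pairwise_cons.2 hp⟩
      rw [List.count_eq_zero_of_not_mem h2]
      simp

theorem gam_rep (k : ℕ) {t : List ℕ} (hk : k ∉ t) (m : ℕ) :
    gam (List.replicate m k ++ t) = m.factorial * k.factorial ^ m * gam t := by
  cases m with
  | zero => simp
  | succ m =>
    unfold gam
    have h1 : (List.replicate (m + 1) k ++ t).toFinset = insert k t.toFinset := by
      ext a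
      simp [List.mem_replicate]
    have h2 : k ∉ t.toFinset := by
      rw [List.mem_toFinset]
      exact hk
    rw [h1, prod_insert h2]
    congr 1
    · rw [List.count_append, List.count_replicate_self, List.count_eq_zero_of_not_mem hk, add_zero]
    · refine prod_congr rfl fun a ha => ?_
      have h3 : a ≠ k := by
        rintro rfl
        exact h2 ha
      have h4 : (List.replicate (m + 1) k ++ t).count a = t.count a := by
        rw [List.count_append, List.count_replicate]
        have h5 : (k == a) = false := by
          rw [beq_eq_false_iff_ne]
          exact h3.symm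
        rw [h5]
        simp
      rw [h4]

theorem gamN (N : ℕ) : ∀ d : List ℕ, d.length ≤ N → d.Pairwise (· ≤ ·) →
    gsum d (fun _ => (1 : ℕ)) = gam d := by
  induction N with
  | zero =>
    intro d hd _
    have h : d = [] := List.eq_nil_of_length_eq_zero (by omega)
    rw [h, gsum]
    simp [gam]
  | succ N ih =>
    intro d hd hp
    cases d with
    | nil =>
      rw [gsum]
      simp [gam]
    | cons k t =>
      rw [List.pairwise_cons] at hp
      obtain ⟨t', h1, h2, h3⟩ := split k t hp.2 hp.1
      rw [gsum]
      have hm : (k :: t) = List.replicate (t.count k + 1) k ++ t' := by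
        rw [List.replicate_succ, List.cons_append, ← h1]
      rw [hm, gam_rep k h2]
      set m := t.count k with hmdef
      have key : ∀ i ∈ range (m + 1), (m.descFactorial i : ℕ) * k.factorial ^ i *
          csum k (fun _ => gsum (t.drop i) (fun _ => (1 : ℕ))) =
          m.factorial * k.factorial ^ (m + 1) * gam t' := by
        intro i hi
        have hi' : i ≤ m := Nat.lt_succ_iff.1 (mem_range.1 hi)
        have h4 : t.drop i = List.replicate (m - i) k ++ t' := by
          conv_lhs => rw [h1]
          rw [List.drop_append_of_le_length (by rw [List.length_replicate]; exact hi'),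
            List.drop_replicate]
        have h5 : gsum (t.drop i) (fun _ => (1 : ℕ)) = gam (t.drop i) := by
          apply ih
          · rw [List.length_drop]
            rw [List.length_cons] at hd
            omega
          · exact hp.2.sublist (List.drop_sublist i t)
        rw [csum_const, h5, h4, gam_rep k h2, ← Nat.factorial_mul_descFactorial hi']
        have h6 : k.factorial ^ (m + 1) = k.factorial ^ i * (k.factorial * k.factorial ^ (m - i)) := by
          rw [← pow_succ', ← pow_add]
          congr 1
          omega
        rw [h6]
        ring
      have h7 : (∑ i ∈ range (m + 1), (m.descFactorial i : ℕ) * k.factorial ^ i *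
          csum k (fun _ => gsum (t.drop i) (fun _ => (1 : ℕ)))) =
          ∑ i ∈ range (m + 1), m.factorial * k.factorial ^ (m + 1) * gam t' := sum_congr rfl key
      refine h7.trans ?_
      rw [sum_const, card_range, Nat.factorial_succ, smul_eq_mul]
      ring

theorem gam : GamStmt := fun d hd => gamN d.length d le_rfl hd

end Pool.Agent.UMG.B.H80
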